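import Pool.Agent.Y938.RD.Stm

set_option autoImplicit false

open Filter Topology

namespace Pool.Agent.Y568.RD

open Pool.Agent.Y938.RD

theorem _root_.Pool.Agent.Y938.RD.PB.y568_le' {p : ℕ → ℝ} (h : PB p) (n : ℕ) : p n ≤ 1 / ((n : ℝ) + 1) ^ 3 := by
  rcases Nat.even_or_odd' n with ⟨m, rfl | rfl⟩
  · have := h.le m
    push_cast
    exact this
  · rw [h.odd m]; positivity

theorem _root_.Pool.Agent.Y938.RD.PB.y568_summ {p : ℕ → ℝ} (h : PB p) : Summable (fun n : ℕ => ((n : ℝ) + 1) * p n) := by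
  have h1 : Summable (fun n : ℕ => 1 / ((n : ℝ) + 1) ^ 2) := by
    have h2 := (summable_nat_add_iff 1).2 (Real.summable_one_div_nat_pow.2 (one_lt_two))
    refine h2.congr fun n => ?_
    push_cast
    rfl
  refine Summable.of_nonneg_of_le (fun n => mul_nonneg (by positivity) (h.nonneg n)) (fun n => ?_) h1
  have h3 := h.y568_le' n
  have h4 : (0 : ℝ) < (n : ℝ) + 1 := by positivity
  calc ((n : ℝ) + 1) * p n ≤ ((n : ℝ) + 1) * (1 / ((n : ℝ) + 1) ^ 3) := by gcongr
    _ = 1 / ((n : ℝ) + 1) ^ 2 := by field_simp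

theorem _root_.Pool.Agent.Y938.RD.PB.y568_summ1 {p : ℕ → ℝ} (h : PB p) : Summable p := by
  refine Summable.of_nonneg_of_le h.nonneg (fun n => ?_) h.y568_summ
  have := h.nonneg n
  have h2 : (0 : ℝ) ≤ n := by positivity
  nlinarith

theorem _root_.Pool.Agent.Y938.RD.PB.y568_summn {p : ℕ → ℝ} (h : PB p) : Summable (fun n : ℕ => (n : ℝ) * p n) := by
  refine Summable.of_nonneg_of_le (fun n => mul_nonneg (by positivity) (h.nonneg n)) (fun n => ?_)
    h.y568_summ
  have := h.nonneg n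
  nlinarith

theorem _root_.Pool.Agent.Y938.RD.PB.y568_le_half {p : ℕ → ℝ} (h : PB p) : ∑' n : ℕ, (n : ℝ) * p n ≤ 1 / 2 := by
  have he : Summable (fun k : ℕ => ((2 * k : ℕ) : ℝ) * p (2 * k)) :=
    h.y568_summn.comp_injective (i := fun k : ℕ => 2 * k) (fun a b hab => by
      have : 2 * a = 2 * b := hab
      omega)
  have ho : Summable (fun k : ℕ => ((2 * k + 1 : ℕ) : ℝ) * p (2 * k + 1)) :=
    h.y568_summn.comp_injective (i := fun k : ℕ => 2 * k + 1) (fun a b hab => by
      have : 2 * a + 1 = 2 * b + 1 := hab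
      omega)
  rw [← tsum_even_add_odd he ho]
  have h1 : ∑' k : ℕ, ((2 * k + 1 : ℕ) : ℝ) * p (2 * k + 1) = 0 := by
    rw [← tsum_zero (β := ℕ)]
    exact tsum_congr fun k => by rw [h.odd k, mul_zero]
  rw [h1, add_zero]
  refine Real.tsum_le_of_sum_range_le (fun k => mul_nonneg (by positivity) (h.nonneg _)) fun N => ?_
  have key : ∀ N : ℕ, ∑ k ∈ Finset.range (N + 1), ((2 * k : ℕ) : ℝ) * p (2 * k) ≤
      1 / 4 - 1 / (4 * ((N : ℝ) + 1)) := by
    intro N
    induction N with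
    | zero => simp
    | succ N ih =>
      rw [Finset.sum_range_succ]
      have h2 := h.le (N + 1)
      have h3 : ((2 * (N + 1) : ℕ) : ℝ) * p (2 * (N + 1)) ≤
          1 / (4 * ((N : ℝ) + 1)) - 1 / (4 * (((N + 1 : ℕ) : ℝ) + 1)) := by
        have h4 : ((2 * (N + 1) : ℕ) : ℝ) * p (2 * (N + 1)) ≤
            (2 * ((N : ℝ) + 1)) * (1 / (2 * ((N : ℝ) + 1) + 1) ^ 3) := by
          push_cast at h2 ⊢
          gcongr
        refine h4.trans ?_
        push_cast
        have h5 : (0 : ℝ) ≤ N := by positivity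
        have e1 : 1 / (4 * ((N : ℝ) + 1)) - 1 / (4 * ((N : ℝ) + 1 + 1)) =
            1 / (4 * ((N : ℝ) + 1) * ((N : ℝ) + 1 + 1)) := by
          field_simp
          ring
        rw [e1, mul_one_div, div_le_div_iff₀ (by positivity) (by positivity), one_mul]
        have e2 : (2 * ((N : ℝ) + 1) + 1) ^ 3 - 2 * ((N : ℝ) + 1) * (4 * ((N : ℝ) + 1) * ((N : ℝ) + 1 + 1))
            = 4 * ((N : ℝ) + 1) ^ 2 + 6 * ((N : ℝ) + 1) + 1 := by ring
        have e3 : (0 : ℝ) ≤ 4 * ((N : ℝ) + 1) ^ 2 + 6 * ((N : ℝ) + 1) + 1 := by positivity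
        linarith
      linarith
  have h7 := key N
  rw [Finset.sum_range_succ] at h7
  have h8 : 0 ≤ ((2 * N : ℕ) : ℝ) * p (2 * N) := mul_nonneg (by positivity) (h.nonneg _)
  have h9 : 0 ≤ 1 / (4 * ((N : ℝ) + 1)) := by positivity
  linarith

theorem _root_.Pool.Agent.Y938.RD.PB.y568_two_le {p : ℕ → ℝ} (h : PB p) :
    2 * (∑' n : ℕ, p n - 1) ≤ ∑' n : ℕ, (n : ℝ) * p n := by
  rw [h.y568_summ1.tsum_eq_zero_add, h.y568_summn.tsum_eq_zero_add, h.zero]
  have hs1 : Summable (fun n : ℕ => p (n + 1)) := (summable_nat_add_iff 1).2 h.y568_summ1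
  have hs2 : Summable (fun n : ℕ => ((n + 1 : ℕ) : ℝ) * p (n + 1)) :=
    (summable_nat_add_iff 1).2 h.y568_summn
  have h1 : 2 * ∑' n : ℕ, p (n + 1) ≤ ∑' n : ℕ, ((n + 1 : ℕ) : ℝ) * p (n + 1) := by
    rw [← tsum_mul_left]
    refine Summable.tsum_le_tsum (fun n => ?_) (hs1.mul_left 2) hs2
    rcases Nat.eq_zero_or_pos n with rfl | hn
    · have := h.odd 0
      simp only [mul_zero, zero_add] at this
      simp [this]
    · have h2 : (1 : ℝ) ≤ n := by exact_mod_cast hn
      have h3 := h.nonneg (n + 1)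
      push_cast
      nlinarith
  simp only [Nat.cast_zero, zero_mul, zero_add]
  linarith

theorem Gf_one (p : ℕ → ℝ) : Gf p 1 = ∑' n : ℕ, p n := by
  unfold Gf
  exact tsum_congr fun n => by simp

theorem _root_.Pool.Agent.Y938.RD.PB.y568_summG {p : ℕ → ℝ} (h : PB p) {s : ℝ} (hs : 1 ≤ s) :
    Summable (fun n : ℕ => p n / s ^ (n + 1)) := by
  have hs0 : 0 < s := by linarith
  refine Summable.of_nonneg_of_le (fun n => div_nonneg (h.nonneg n) (by positivity)) (fun n => ?_)
    h.y568_summ1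
  exact div_le_self (h.nonneg n) (one_le_pow₀ hs)

theorem _root_.Pool.Agent.Y938.RD.PB.y568_one_div_le {p : ℕ → ℝ} (h : PB p) {s : ℝ} (hs : 1 ≤ s) : 1 / s ≤ Gf p s := by
  have hs0 : 0 < s := by linarith
  have h1 := (h.y568_summG hs).le_tsum 0 (fun n _ => div_nonneg (h.nonneg n) (by positivity))
  rw [h.zero, zero_add, pow_one] at h1
  exact h1

theorem _root_.Pool.Agent.Y938.RD.PB.y568_lt_one {p : ℕ → ℝ} (h : PB p) : 1 < Gf p 1 := by
  rw [Gf_one]
  have h1 := h.y568_summ1.sum_le_tsum (Finset.range 3) (fun n _ => h.nonneg n)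
  have h2 := h.ge 1 le_rfl
  have h3 := h.nonneg 1
  simp only [Finset.sum_range_succ, Finset.sum_range_zero, h.zero] at h1
  norm_num at h2
  linarith

theorem G0_spec : S_G0 := by
  intro p h
  refine ⟨h.y568_summ, fun s hs => h.y568_summG hs, fun s hs => ?_, fun s hs => ?_, h.y568_lt_one.le,
    fun s hs hs2 => ?_, h.y568_le_half, ?_, h.y568_lt_one⟩
  · exact lt_of_lt_of_le (by positivity) (h.y568_one_div_le hs)
  · unfold Gf
    have hs0 : 0 < s := by linarith
    refine Summable.tsum_lt_tsum (i := 0) (fun n => ?_) ?_ (h.y568_summG hs.le) (h.y568_summG le_rfl)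
    · rw [one_pow, div_one]
      exact div_le_self (h.nonneg n) (one_le_pow₀ hs.le)
    · simp only [h.zero, zero_add, pow_one, div_one]
      rw [div_lt_one hs0]
      exact hs
  · refine le_trans ?_ (h.y568_one_div_le hs)
    have hs0 : 0 < s := by linarith
    exact one_div_le_one_div_of_le hs0 hs2
  · rw [Gf_one]; exact h.y568_two_le

theorem G1_spec : S_G1 := by
  intro p h
  refine ⟨1 / 2, cc p, by norm_num, fun t ht ht1 => ?_⟩
  have hs : (1 : ℝ) ≤ 1 + t := by linarith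
  have hd : Gf p 1 - Gf p (1 + t) = ∑' n : ℕ, (p n - p n / (1 + t) ^ (n + 1)) := by
    rw [Gf_one]
    unfold Gf
    rw [h.y568_summ1.tsum_sub (h.y568_summG hs)]
  have hsum := h.y568_summ1.sub (h.y568_summG hs)
  rw [hd]
  constructor
  · have h1 := hsum.le_tsum 0 (fun n _ => by
      have := div_le_self (h.nonneg n) (one_le_pow₀ (n := n + 1) hs)
      linarith)
    refine le_trans ?_ h1
    simp only [h.zero, zero_add, pow_one]
    rw [le_sub_iff_add_le, ← le_sub_iff_add_le', div_le_iff₀ (by linarith)]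
    nlinarith
  · unfold cc
    rw [mul_comm, ← tsum_mul_left]
    refine Summable.tsum_le_tsum (fun n => ?_) hsum (h.y568_summ.mul_left t)
    have h2 : 1 - ((n : ℝ) + 1) * t ≤ 1 / (1 + t) ^ (n + 1) := by
      have h3 := one_add_mul_le_pow (a := -(t / (1 + t))) (by
        have : t / (1 + t) ≤ 1 := by rw [div_le_one (by linarith)]; linarith
        linarith) (n + 1)
      have h4 : 1 + -(t / (1 + t)) = 1 / (1 + t) := by
        field_simp
        ring
      rw [h4, one_div_pow] at h3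
      refine le_trans ?_ h3
      push_cast
      have h5 : t / (1 + t) ≤ t := div_le_self ht.le hs
      have h6 : (0 : ℝ) ≤ (n : ℝ) + 1 := by positivity
      nlinarith [mul_le_mul_of_nonneg_left h5 h6]
    have h7 := h.nonneg n
    have h8 : p n / (1 + t) ^ (n + 1) = p n * (1 / (1 + t) ^ (n + 1)) := by ring
    rw [h8]
    nlinarith [mul_le_mul_of_nonneg_left h2 h7]

theorem H2_spec (_ : S_G0) : S_H2 := by
  intro p h
  have hcc : cc p = ∑' n : ℕ, (n : ℝ) * p n + ∑' n : ℕ, p n := by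
    unfold cc
    rw [← h.y568_summn.tsum_add h.y568_summ1]
    exact tsum_congr fun n => by ring
  have hP' := h.y568_le_half
  have h2P := h.y568_two_le
  have h1 := h.y568_lt_one
  rw [Gf_one] at h1
  rw [hcc, Gf_one]
  refine ⟨by nlinarith, fun s hs => ?_⟩
  have hs0 : 0 < s := by linarith
  obtain ⟨z, hz⟩ : ∃ z, z = s⁻¹ := ⟨_, rfl⟩
  have hz0 : 0 < z := by rw [hz]; positivity
  have hz1 : z < 1 := by rw [hz]; exact inv_lt_one_of_one_lt₀ hs
  have hzs : z * s = 1 := by rw [hz]; exact inv_mul_cancel₀ hs0.ne'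
  -- the bracket
  obtain ⟨br, hbr⟩ : ∃ br : ℕ → ℝ, br = fun n => ∑ i ∈ Finset.range n, z ^ i := ⟨_, rfl⟩
  have hbrs : ∀ n, br (n + 1) = br n + z ^ n := fun n => by
    rw [hbr]; exact Finset.sum_range_succ _ _
  have hbr0 : br 0 = 0 := by rw [hbr]; simp
  have hbrn : ∀ n, 0 ≤ br n := fun n => by rw [hbr]; positivity
  have hzn : ∀ n : ℕ, z ^ n ≤ 1 := fun n => pow_le_one₀ hz0.le hz1.le
  have hbrle : ∀ n : ℕ, br n ≤ n := by
    intro n
    induction n with
    | zero => rw [hbr0]; simp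
    | succ n ih => rw [hbrs]; push_cast; linarith [hzn n]
  have hgeo : ∀ n : ℕ, 1 - z ^ n = (1 - z) * br n := by
    intro n
    rw [hbr, mul_comm]
    exact (geom_sum_mul_neg z n).symm
  have hbr1 : ∀ n : ℕ, 1 ≤ br (n + 1) := by
    intro n
    induction n with
    | zero => rw [hbrs, hbr0]; simp
    | succ n ih => rw [hbrs]; have := pow_nonneg hz0.le (n + 1); linarith
  have hT3 : ∀ n : ℕ, (1 - z) * br (n + 2) / 2 ≤ ((n + 2 : ℕ) : ℝ) - br (n + 2) := by
    intro n
    have h2 : 1 - z ^ (n + 1) ≤ ((n + 2 : ℕ) : ℝ) - br (n + 2) := by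
      rw [hbrs (n + 1)]
      have := hbrle (n + 1)
      push_cast at this ⊢
      linarith
    rw [hgeo] at h2
    refine le_trans ?_ h2
    have h3 := hbrs (n + 1)
    have h4 := hbr1 n
    have h5 := hzn (n + 1)
    have h6 : br (n + 2) ≤ 2 * br (n + 1) := by
      rw [h3]; linarith
    have h7 : 0 < 1 - z := by linarith
    nlinarith [mul_le_mul_of_nonneg_left h6 h7.le]
  -- the sums
  have hsz : Summable (fun n : ℕ => p n * z ^ n) :=
    Summable.of_nonneg_of_le (fun n => mul_nonneg (h.nonneg n) (by positivity))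
      (fun n => mul_le_of_le_one_right (h.nonneg n) (hzn n)) h.y568_summ1
  have hsb : Summable (fun n : ℕ => p n * br n) :=
    Summable.of_nonneg_of_le (fun n => mul_nonneg (h.nonneg n) (hbrn n))
      (fun n => by rw [mul_comm]; exact mul_le_mul_of_nonneg_right (hbrle n) (h.nonneg n)) h.y568_summn
  obtain ⟨P1, hP1⟩ : ∃ P1, P1 = ∑' n : ℕ, p n := ⟨_, rfl⟩
  obtain ⟨Pp, hPp⟩ : ∃ Pp, Pp = ∑' n : ℕ, (n : ℝ) * p n := ⟨_, rfl⟩
  obtain ⟨P, hP⟩ : ∃ P, P = ∑' n : ℕ, p n * z ^ n := ⟨_, rfl⟩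
  obtain ⟨S, hS⟩ : ∃ S, S = ∑' n : ℕ, p n * br n := ⟨_, rfl⟩
  rw [← hPp] at hP'
  rw [← hP1, ← hPp] at h2P
  rw [← hP1] at h1
  rw [← hP1, ← hPp]
  have hG : Gf p s = z * P := by
    rw [hP, ← tsum_mul_left]
    unfold Gf
    refine tsum_congr fun n => ?_
    rw [div_eq_mul_inv, ← inv_pow, ← hz, pow_succ]
    ring
  have hPS : P1 - P = (1 - z) * S := by
    rw [hP1, hP, hS, ← h.y568_summ1.tsum_sub hsz, ← tsum_mul_left]
    refine tsum_congr fun n => ?_
    have := hgeo n
    linear_combination p n * this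
  have hS0 : 0 ≤ S := by
    rw [hS]; exact tsum_nonneg fun n => mul_nonneg (h.nonneg n) (hbrn n)
  have hPge : 1 ≤ P := by
    have h2 := hsz.le_tsum 0 (fun n _ => mul_nonneg (h.nonneg n) (by positivity))
    rw [hP]
    simpa [h.zero] using h2
  have hdiff : (1 - z) * S / 2 ≤ Pp - S := by
    rw [hPp, hS, ← h.y568_summn.tsum_sub hsb, ← tsum_mul_left, ← tsum_div_const]
    refine Summable.tsum_le_tsum (fun n => ?_) ((hsb.mul_left _).div_const _) (h.y568_summn.sub hsb)
    rcases n with _ | _ | n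
    · simp [hbr0]
    · have := h.odd 0
      simp only [mul_zero, zero_add] at this
      simp [this]
    · have h2 := hT3 n
      have h3 := h.nonneg (n + 2)
      have h4 := mul_le_mul_of_nonneg_left h2 h3
      have e1 : (1 - z) * (p (n + 1 + 1) * br (n + 1 + 1)) / 2
          = p (n + 2) * ((1 - z) * br (n + 2) / 2) := by ring
      have e2 : ((n + 1 + 1 : ℕ) : ℝ) * p (n + 1 + 1) - p (n + 1 + 1) * br (n + 1 + 1)
          = p (n + 2) * (((n + 2 : ℕ) : ℝ) - br (n + 2)) := by ring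
      rw [e1, e2]
      exact h4
  rw [hG]
  have h7 : 0 < 1 - z := by linarith
  have hSP : S ≤ Pp := by nlinarith [mul_nonneg h7.le hS0]
  have hSh : S ≤ 1 / 2 := by linarith
  have hSS : S * S ≤ S / 2 := by nlinarith
  have hA : (1 - z) * (S * S) ≤ P * (Pp - S) := by
    have hb : (1 - z) * (S * S) ≤ (1 - z) * S / 2 := by nlinarith
    have hc : Pp - S ≤ P * (Pp - S) := by nlinarith
    linarith
  have hB : P1 * S ≤ Pp * P := by
    have : P1 = P + (1 - z) * S := by linarith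
    rw [this]
    nlinarith
  have hC : (Pp + P1) * (s - 1) * (z * P) = (Pp + P1) * ((1 - z) * P) := by
    have : (s - 1) * z = 1 - z := by linarith
    linear_combination (Pp + P1) * P * this
  rw [hC]
  have hD : P1 * (P1 - z * P) = P1 * ((1 - z) * S) + (1 - z) * P1 * P := by
    have : P1 - z * P = (1 - z) * S + (1 - z) * P := by linarith
    rw [this]; ring
  rw [hD]
  nlinarith [mul_le_mul_of_nonneg_left hB h7.le]

end Pool.Agent.Y568.RD
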